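import Pool.Agent.helper82.LB.Spec1

/-!
# Row lb:TFQ (MP_2e0e07_nt): a nondegenerate ternary form over `ℚ_p` has a value at an integral vector which is not a square
-/

set_option autoImplicit false

open Matrix Polynomial NumberField Pool.Agent.GO Pool.Agent.RG Pool.Agent.CH

namespace Pool.Agent.LB

theorem TFQ_closed (p : ℕ) [Fact p.Prime] : IsClosed {x : ℚ_[p] | IsSquare x} := by
  have h1 := (isClosedMap_pow ℚ_[p] 2).isClosed_range
  have h2 : {x : ℚ_[p] | IsSquare x} = Set.range fun x : ℚ_[p] => x ^ 2 := by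
    ext x
    constructor
    · rintro ⟨r, rfl⟩
      exact ⟨r, sq r⟩
    · rintro ⟨r, rfl⟩
      exact ⟨r, sq r⟩
  rw [h2]
  exact h1

theorem TFQ_p (p : ℕ) [hp : Fact p.Prime] : ¬ IsSquare (p : ℚ_[p]) := by
  rintro ⟨r, hr⟩
  have hp0 : (p : ℚ_[p]) ≠ 0 := by exact_mod_cast hp.out.ne_zero
  have hr0 : r ≠ 0 := by
    rintro rfl
    rw [mul_zero] at hr
    exact hp0 hr
  have h1 := Padic.valuation_mul hr0 hr0
  rw [← hr, Padic.valuation_p] at h1
  omega

theorem TFQ : TFQ_stmt := by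
  intro p hp B hS hdet
  by_contra hcon
  push Not at hcon
  obtain ⟨q, hq⟩ : ∃ q : (Fin 3 → ℚ_[p]) → ℚ_[p], q = fun x => ∑ i, ∑ j, x i * B i j * x j := ⟨_, rfl⟩
  have hqc : Continuous q := by
    rw [hq]
    fun_prop
  have h1 : ∀ x : Fin 3 → ℤ_[p], IsSquare (q fun i => (x i : ℚ_[p])) := by
    intro x
    have hd : DenseRange (Pi.map fun _ : Fin 3 => (Int.cast : ℤ → ℤ_[p])) :=
      DenseRange.piMap fun _ => PadicInt.denseRange_intCast
    refine hd.induction_on (p := fun x : Fin 3 → ℤ_[p] => IsSquare (q fun i => (x i : ℚ_[p]))) x ?_ ?_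
    · refine (TFQ_closed p).preimage (hqc.comp ?_)
      exact continuous_pi fun i => continuous_subtype_val.comp (continuous_apply i)
    · intro τ
      have := hcon τ
      rw [hq]
      simpa using this
  have h2 : ∀ x : Fin 3 → ℚ_[p], IsSquare (q x) := by
    intro x
    have hp1 : (1 : ℝ) < p := by exact_mod_cast hp.out.one_lt
    have hp0 : (p : ℚ_[p]) ≠ 0 := by exact_mod_cast hp.out.ne_zero
    obtain ⟨k, hk⟩ := pow_unbounded_of_one_lt (∑ i, ‖x i‖) hp1
    have hki : ∀ i, ‖(p : ℚ_[p]) ^ k * x i‖ ≤ 1 := by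
      intro i
      have h3 : ‖x i‖ ≤ (p : ℝ) ^ k :=
        (Finset.single_le_sum (f := fun i => ‖x i‖) (fun j _ => norm_nonneg _) (Finset.mem_univ i)).trans hk.le
      rw [norm_mul, norm_pow, Padic.norm_p, inv_pow, ← div_eq_inv_mul]
      exact (div_le_one (by positivity)).2 h3
    obtain ⟨r, hr⟩ := h1 fun i => ⟨(p : ℚ_[p]) ^ k * x i, hki i⟩
    have e : q (fun i => (p : ℚ_[p]) ^ k * x i) = ((p : ℚ_[p]) ^ k) ^ 2 * q x := by
      rw [hq]
      simp only [Finset.mul_sum]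
      refine Finset.sum_congr rfl fun i _ => Finset.sum_congr rfl fun j _ => ?_
      ring
    have hr' : q (fun i => (p : ℚ_[p]) ^ k * x i) = r * r := hr
    rw [e] at hr'
    refine ⟨r / (p : ℚ_[p]) ^ k, ?_⟩
    have hpk : (p : ℚ_[p]) ^ k ≠ 0 := pow_ne_zero _ hp0
    rw [div_mul_div_comm, eq_div_iff (mul_ne_zero hpk hpk), ← hr']
    ring
  -- the orthogonal basis
  have hsym : (Matrix.toBilin' B).IsSymm := Matrix.isSymm_toBilin'_iff_isSymm.2 hS
  have hnd : (Matrix.toBilin' B).Nondegenerate := Matrix.nondegenerate_toBilin'_iff.2 (Matrix.nondegenerate_of_det_ne_zero hdet)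
  have hqB : ∀ x, Matrix.toBilin' B x x = q x := by
    intro x
    rw [Matrix.toBilin'_apply, hq]
  have : Invertible (2 : ℚ_[p]) := invertibleOfNonzero two_ne_zero
  obtain ⟨v, hv⟩ := LinearMap.BilinForm.exists_orthogonal_basis (K := ℚ_[p]) (V := Fin 3 → ℚ_[p]) (B := Matrix.toBilin' B) (LinearMap.BilinForm.isSymm_iff.1 hsym)
  have hfr : Module.finrank ℚ_[p] (Fin 3 → ℚ_[p]) = 3 := by simp
  obtain ⟨i0, i1, hi⟩ : ∃ i0 i1 : Fin (Module.finrank ℚ_[p] (Fin 3 → ℚ_[p])), i0 ≠ i1 := by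
    rw [hfr]
    exact ⟨0, 1, by decide⟩
  have hn0 := hv.not_isOrtho_basis_self_of_separatingLeft hnd.1 i0
  have hn1 := hv.not_isOrtho_basis_self_of_separatingLeft hnd.1 i1
  have ho01 : Matrix.toBilin' B (v i0) (v i1) = 0 := hv hi
  have ho10 : Matrix.toBilin' B (v i1) (v i0) = 0 := hv hi.symm
  obtain ⟨a, ha⟩ := h2 (v i0)
  obtain ⟨b, hb⟩ := h2 (v i1)
  rw [← hqB] at ha hb
  rw [ha] at hn0
  rw [hb] at hn1
  have ha0 : a ≠ 0 := fun h => hn0 (by rw [h, mul_zero])
  have hb0 : b ≠ 0 := fun h => hn1 (by rw [h, mul_zero])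
  have h3 : ∀ s t : ℚ_[p], IsSquare (s ^ 2 + t ^ 2) := by
    intro s t
    have h4 := h2 ((s / a) • v i0 + (t / b) • v i1)
    rw [← hqB] at h4
    simp only [map_add, map_smul, LinearMap.add_apply, LinearMap.smul_apply, smul_eq_mul, ha, hb, ho01, ho10, mul_zero, add_zero,
      zero_add] at h4
    have e : s / a * (s / a * (a * a)) + t / b * (t / b * (b * b)) = s ^ 2 + t ^ 2 := by
      field_simp
    rw [e] at h4
    exact h4
  have h4 : ∀ n : ℕ, IsSquare (n : ℚ_[p]) := by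
    intro n
    induction n with
    | zero => exact ⟨0, by simp⟩
    | succ n ih =>
      obtain ⟨r, hr⟩ := ih
      have h5 := h3 r 1
      rw [sq, ← hr, one_pow] at h5
      push_cast
      exact h5
  exact TFQ_p p (h4 p)

end Pool.Agent.LB

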